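import Pool.Agent.Q321.VS.Mem

/-!
# Scheduling a single vehicle on a path with release and handling times is NP-hard

The reduction is from subset sum. With `n` numbers `a_1, …, a_n` there are `2 n + 2` big jobs, with
a very long handling time `H`, whose release times are (almost) the multiples of `H`, so that a
schedule which meets the bound must process them in the order of their release times. They sit
alternately at the start vertex and at distances `σ_{n-1}, σ_{n-2}, …, σ_0 = 0` from it, where
`σ_i = a_1 + … + a_i`, and the last one is at distance `σ_n`; so the vehicle makes `n` round trips
of decreasing length, and a last, full round trip. The small job `i` is at distance `σ_i` and has
handling time `a_i`; to process it before the last round trip costs an additional travel time of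
`2 a_i`. The release time of the big job before the last round trip leaves no more than the target
value for the small jobs which are processed after it, and the bound for the total time leaves no
more than the sum of all the numbers minus the target for the small jobs processed before it.
-/

namespace Pool.Agent.Results.MP_6e49ee_lc.PathVehicleNPComplete

open Pool.Agent.NPC Pool.Agent.Q321.VS

/-- **Scheduling a single vehicle on a path with release times and positive handling times is
NP-complete** (decision version, numbers in binary), even when all the travel times are positive
and symmetric and the start vertex is an end of the path. -/
theorem result :
    (InNPP PathVSP ∧ NPHardP PathVSP) ∧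
    (InNPP (fun x => Special x ∧ PathVSP x) ∧ NPHardP (fun x => Special x ∧ PathVSP x)) :=
  ⟨⟨inNPP_PathVSP, hardPr_PathVSP.toHardI.toNPHardP⟩,
    ⟨inNPP_special, hardI_special.toNPHardP⟩⟩

end Pool.Agent.Results.MP_6e49ee_lc.PathVehicleNPComplete
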